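import Mathlib

/-!
# A basis of the lattice adapted to a saturated subgroup
-/

set_option autoImplicit false

namespace Pool.Agent.Helper82.NT

open Module

/-- a basis of `ℤ^3` adapted to a saturated subgroup -/
theorem exists_basis (Λ : Submodule ℤ (Fin 3 → ℤ))
    (hsat : ∀ (k : ℤ) (m : Fin 3 → ℤ), k ≠ 0 → k • m ∈ Λ → m ∈ Λ) (hne : Λ ≠ ⊤) (h0 : Λ ≠ ⊥) :
    ∃ M N : Matrix (Fin 3) (Fin 3) ℤ, N * M = 1 ∧
      ((M 0 ∈ Λ ∧ ∀ a b : ℤ, a • M 1 + b • M 2 ∈ Λ → a = 0 ∧ b = 0) ∨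
        (M 0 ∈ Λ ∧ M 1 ∈ Λ ∧ M 2 ∉ Λ)) := by
  classical
  have htf : IsTorsionFree ℤ ((Fin 3 → ℤ) ⧸ Λ) := by
    refine IsTorsionFree.of_smul_eq_zero fun k q h => ?_
    by_cases hk : k = 0
    · exact Or.inl hk
    · right
      obtain ⟨m, rfl⟩ := Submodule.Quotient.mk_surjective Λ q
      rw [← Submodule.Quotient.mk_smul, Submodule.Quotient.mk_eq_zero] at h
      rw [Submodule.Quotient.mk_eq_zero]
      exact hsat k m hk h
  have hrank := Λ.finrank_quotient_add_finrank
  rw [finrank_fin_fun] at hrank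
  set q := finrank ℤ ((Fin 3 → ℤ) ⧸ Λ) with hq
  set r := finrank ℤ Λ with hr
  let bΛ : Basis (Fin r) ℤ Λ := finBasis ℤ Λ
  let bQ : Basis (Fin q) ℤ ((Fin 3 → ℤ) ⧸ Λ) := finBasis ℤ _
  have hq0 : q ≠ 0 := by
    intro h
    have : Subsingleton ((Fin 3 → ℤ) ⧸ Λ) := by
      rw [hq] at h
      exact Module.finrank_zero_iff.1 h
    exact hne ((Submodule.Quotient.subsingleton_iff).1 this)
  have hr0 : r ≠ 0 := by
    intro h
    have h1 : Subsingleton Λ := by
      rw [hr] at h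
      exact Module.finrank_zero_iff.1 h
    exact h0 (Submodule.subsingleton_iff_eq_bot.1 h1)
  let b := Basis.sumQuot bΛ bQ
  let e : Fin r ⊕ Fin q ≃ Fin 3 := finSumFinEquiv.trans (finCongr (by omega))
  let b' := b.reindex e
  have hb' : ∀ i, b' i = b (e.symm i) := fun i => b.reindex_apply e i
  have hmemL : ∀ i : Fin 3, (i : ℕ) < r → b' i ∈ Λ := by
    intro i hi
    have h1 : e.symm i = Sum.inl ⟨i, hi⟩ := by
      rw [Equiv.symm_apply_eq]
      ext
      simp [e]
    rw [hb', h1, Basis.sumQuot_inl]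
    exact (bΛ _).2
  have hQ : ∀ i : Fin 3, ∀ hi : r ≤ (i : ℕ), Submodule.Quotient.mk (b' i) = bQ ⟨i - r, by omega⟩ := by
    intro i hi
    have h1 : e.symm i = Sum.inr ⟨i - r, by omega⟩ := by
      rw [Equiv.symm_apply_eq]
      ext
      simp [e]
      omega
    rw [hb', h1, Basis.sumQuot_inr]
  -- the inverse matrix
  let M : Matrix (Fin 3) (Fin 3) ℤ := fun i => b' i
  let N : Matrix (Fin 3) (Fin 3) ℤ := fun l => ⇑(b'.repr (Pi.single l 1))
  have hNM : N * M = 1 := by
    ext l j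
    have h1 := b'.sum_repr (Pi.single l (1 : ℤ))
    have h2 := congrFun h1 j
    rw [Finset.sum_apply] at h2
    rw [Matrix.mul_apply, Matrix.one_apply]
    simp only [Pi.smul_apply, smul_eq_mul] at h2
    rw [show ∑ i, N l i * M i j = ∑ i, (b'.repr (Pi.single l 1)) i * b' i j from rfl, h2]
    by_cases h : l = j
    · subst h; simp
    · rw [if_neg h, Pi.single_eq_of_ne (Ne.symm h)]
  refine ⟨M, N, hNM, ?_⟩
  rcases (by omega : r = 1 ∨ r = 2) with h | h
  · left
    refine ⟨hmemL 0 (by simp; omega), fun a c hac => ?_⟩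
    have h1 := hQ 1 (by simp; omega)
    have h2 := hQ 2 (by simp; omega)
    have h3 : a • bQ ⟨(1 : Fin 3) - r, by simp; omega⟩ + c • bQ ⟨(2 : Fin 3) - r, by simp; omega⟩ = 0 := by
      rw [← h1, ← h2, ← Submodule.Quotient.mk_smul, ← Submodule.Quotient.mk_smul,
        ← Submodule.Quotient.mk_add, Submodule.Quotient.mk_eq_zero]
      exact hac
    have hne : (⟨(1 : Fin 3) - r, by simp; omega⟩ : Fin q) ≠ ⟨(2 : Fin 3) - r, by simp; omega⟩ := by
      intro hc
      have := congrArg Fin.val hc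
      simp at this
      omega
    generalize (⟨(1 : Fin 3) - r, by simp; omega⟩ : Fin q) = i1 at h3 hne
    generalize (⟨(2 : Fin 3) - r, by simp; omega⟩ : Fin q) = i2 at h3 hne
    have h4 := congrArg (fun v => bQ.repr v i1) h3
    have h5 := congrArg (fun v => bQ.repr v i2) h3
    simp only [map_add, map_smul, Basis.repr_self, Finsupp.add_apply, Finsupp.smul_apply,
      Finsupp.single_eq_same, map_zero, Finsupp.zero_apply, smul_eq_mul] at h4 h5
    rw [Finsupp.single_eq_of_ne hne] at h4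
    rw [Finsupp.single_eq_of_ne (Ne.symm hne)] at h5
    constructor
    · simpa using h4
    · simpa using h5
  · right
    refine ⟨hmemL 0 (by simp; omega), hmemL 1 (by simp; omega), fun hc => ?_⟩
    have h2 := hQ 2 (by simp; omega)
    have h3 : (Submodule.Quotient.mk (b' 2) : (Fin 3 → ℤ) ⧸ Λ) = 0 :=
      (Submodule.Quotient.mk_eq_zero Λ).2 hc
    rw [h3] at h2
    exact bQ.ne_zero _ h2.symm

end Pool.Agent.Helper82.NT
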